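import Mathlib

/-!
# Residues of binomial coefficients along arithmetic progressions
-/

set_option autoImplicit false

namespace Pool.Agent.Results.MP_859259_nt.MissingResidues

/-- the binomial coefficient `C(a n + α, b n + β)`, for integers `α`, `β`. For `0 < b < a` and all
sufficiently large `n` both arguments are nonnegative, so that `Int.toNat` changes nothing. -/
def B (a b : ℕ) (α β : ℤ) (n : ℕ) : ℕ := (a * n + α : ℤ).toNat.choose (b * n + β : ℤ).toNat

/-- the identity `a * C(a m - 1, b m) = (a - b) * C(a m, b m)`, for `m = n + 1` -/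
lemma key (a b n : ℕ) (h0 : 0 < b) (h : b ≤ a) :
    a * (a * (n + 1) - 1).choose (b * (n + 1)) = (a - b) * (a * (n + 1)).choose (b * (n + 1)) := by
  obtain ⟨N, hN⟩ : ∃ N, a * (n + 1) = N + 1 :=
    ⟨a * (n + 1) - 1, by
      have : 0 < a * (n + 1) := Nat.mul_pos (h0.trans_le h) (Nat.succ_pos n)
      omega⟩
  have h1 := Nat.choose_mul_succ_eq N (b * (n + 1))
  rw [hN, Nat.add_sub_cancel]
  have h2 : N + 1 - b * (n + 1) = (a - b) * (n + 1) := by
    rw [← hN, Nat.sub_mul]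
  rw [h2] at h1
  have h3 : (n + 1) * (a * N.choose (b * (n + 1))) =
      (n + 1) * ((a - b) * (N + 1).choose (b * (n + 1))) := by
    calc _ = N.choose (b * (n + 1)) * (a * (n + 1)) := by ring
      _ = N.choose (b * (n + 1)) * (N + 1) := by rw [hN]
      _ = (N + 1).choose (b * (n + 1)) * ((a - b) * (n + 1)) := h1
      _ = _ := by ring
  exact Nat.eq_of_mul_eq_mul_left (Nat.succ_pos n) h3

/-- the identity `a * C(a m - 1, b m - 1) = b * C(a m, b m)`, for `m = n + 1` -/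
lemma key' (a b n : ℕ) (h0 : 0 < b) (h : b ≤ a) :
    a * (a * (n + 1) - 1).choose (b * (n + 1) - 1) = b * (a * (n + 1)).choose (b * (n + 1)) := by
  obtain ⟨N, hN⟩ : ∃ N, a * (n + 1) = N + 1 :=
    ⟨a * (n + 1) - 1, by
      have : 0 < a * (n + 1) := Nat.mul_pos (h0.trans_le h) (Nat.succ_pos n)
      omega⟩
  obtain ⟨K, hK⟩ : ∃ K, b * (n + 1) = K + 1 :=
    ⟨b * (n + 1) - 1, by
      have : 0 < b * (n + 1) := Nat.mul_pos h0 (Nat.succ_pos n)
      omega⟩
  have h1 := Nat.add_one_mul_choose_eq N K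
  rw [hN, hK, Nat.add_sub_cancel, Nat.add_sub_cancel]
  have h3 : (n + 1) * (a * N.choose K) = (n + 1) * (b * (N + 1).choose (K + 1)) := by
    calc _ = a * (n + 1) * N.choose K := by ring
      _ = (N + 1) * N.choose K := by rw [hN]
      _ = (N + 1).choose (K + 1) * (K + 1) := h1
      _ = (N + 1).choose (K + 1) * (b * (n + 1)) := by rw [hK]
      _ = _ := by ring
  exact Nat.eq_of_mul_eq_mul_left (Nat.succ_pos n) h3

lemma B_eq (a b n : ℕ) (h0 : 0 < b) (h : b ≤ a) :
    B a b (-1) 0 (n + 1) = (a * (n + 1) - 1).choose (b * (n + 1)) := by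
  have h1 : 0 < a * (n + 1) := Nat.mul_pos (h0.trans_le h) (Nat.succ_pos n)
  rw [B]
  congr 1
  have : ((a : ℤ) * ((n + 1 : ℕ) : ℤ) + -1) = ((a * (n + 1) : ℕ) : ℤ) - 1 := by push_cast; ring
  rw [this]
  omega

lemma B_eq' (a b n : ℕ) (h0 : 0 < b) (h : b ≤ a) :
    B a b (-1) (-1) (n + 1) = (a * (n + 1) - 1).choose (b * (n + 1) - 1) := by
  have h1 : 0 < a * (n + 1) := Nat.mul_pos (h0.trans_le h) (Nat.succ_pos n)
  have h2 : 0 < b * (n + 1) := Nat.mul_pos h0 (Nat.succ_pos n)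
  rw [B]
  congr 1
  · have : ((a : ℤ) * ((n + 1 : ℕ) : ℤ) + -1) = ((a * (n + 1) : ℕ) : ℤ) - 1 := by push_cast; ring
    rw [this]
    omega
  · have : ((b : ℤ) * ((n + 1 : ℕ) : ℤ) + -1) = ((b * (n + 1) : ℕ) : ℤ) - 1 := by push_cast; ring
    rw [this]
    omega

/-- **Residues missed by binomial coefficients along arithmetic progressions.** Let `0 < b < a` and
let `p` be a prime not dividing `a`. If `p` divides `a - b`, then `p` divides `C(a n - 1, b n)` for
every `n ≥ 1`; if `p` divides `b`, then `p` divides `C(a n - 1, b n - 1)` for every `n ≥ 1`. Hence it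
is not true that for all `a > b > 0`, all integers `α, β`, all primes `p` not dividing `a` and every
residue `r` there are infinitely many `n` with `C(a n + α, b n + β) ≡ r (mod p)`. -/
theorem result :
    (∀ a b p : ℕ, 0 < b → b < a → p.Prime → p.Coprime a →
      (p ∣ a - b → ∀ n : ℕ, 0 < n → p ∣ B a b (-1) 0 n) ∧
      (p ∣ b → ∀ n : ℕ, 0 < n → p ∣ B a b (-1) (-1) n)) ∧
    ¬ (∀ a b : ℕ, 0 < b → b < a → ∀ α β : ℤ, ∀ p : ℕ, p.Prime → p.Coprime a →
      ∀ r : ℕ, r < p → {n : ℕ | 0 < n ∧ B a b α β n % p = r}.Infinite) := by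
  have h : ∀ a b p : ℕ, 0 < b → b < a → p.Prime → p.Coprime a →
      (p ∣ a - b → ∀ n : ℕ, 0 < n → p ∣ B a b (-1) 0 n) ∧
      (p ∣ b → ∀ n : ℕ, 0 < n → p ∣ B a b (-1) (-1) n) := by
    intro a b p h0 hab hp hcop
    constructor
    · intro hd n hn
      obtain ⟨m, rfl⟩ : ∃ m, n = m + 1 := ⟨n - 1, by omega⟩
      rw [B_eq a b m h0 hab.le]
      have h1 := key a b m h0 hab.le
      exact hcop.dvd_of_dvd_mul_left (h1 ▸ hd.mul_right _)
    · intro hd n hn
      obtain ⟨m, rfl⟩ : ∃ m, n = m + 1 := ⟨n - 1, by omega⟩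
      rw [B_eq' a b m h0 hab.le]
      have h1 := key' a b m h0 hab.le
      exact hcop.dvd_of_dvd_mul_left (h1 ▸ hd.mul_right _)
  refine ⟨h, fun hall => ?_⟩
  have h1 := hall 3 1 (by norm_num) (by norm_num) (-1) 0 2 Nat.prime_two (by norm_num) 1
    (by norm_num)
  obtain ⟨n, hn, hn2⟩ := h1.nonempty
  have h2 := (h 3 1 2 (by norm_num) (by norm_num) Nat.prime_two (by norm_num)).1
    (by norm_num) n hn
  omega

end Pool.Agent.Results.MP_859259_nt.MissingResidues
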